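import Mathlib

/-!
# Free abelian subgroups of cactus groups

The cactus group `J_n` contains a free abelian subgroup of rank `⌊(n-1)/2⌋`.
-/

namespace Pool.Agent.Results.MP_fc7805_al.LargeAbelian

/-- The generators of `J_n`: pairs `(lo, hi)` with `1 ≤ lo < hi ≤ n`. -/
structure Interval (n : ℕ) where
  /-- the left end point -/
  lo : ℕ
  /-- the right end point -/
  hi : ℕ
  valid : 1 ≤ lo ∧ lo < hi ∧ hi ≤ n

/-- The defining relators of the cactus group `J_n`. -/
def relators (n : ℕ) : Set (FreeGroup (Interval n)) :=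
  {w | (∃ I : Interval n, w = FreeGroup.of I * FreeGroup.of I) ∨
    (∃ I J : Interval n, (I.hi < J.lo ∨ J.hi < I.lo) ∧
      w = FreeGroup.of I * FreeGroup.of J * (FreeGroup.of J * FreeGroup.of I)⁻¹) ∨
    (∃ I J K : Interval n, I.lo ≤ J.lo ∧ J.hi ≤ I.hi ∧
      K.lo = I.lo + I.hi - J.hi ∧ K.hi = I.lo + I.hi - J.lo ∧
      w = FreeGroup.of I * FreeGroup.of J * (FreeGroup.of K * FreeGroup.of I)⁻¹)}

/-- The cactus group `J_n`. -/
abbrev Cactus (n : ℕ) : Type := PresentedGroup (relators n)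

section Relations

variable {n : ℕ}

/-- The generator `s_{p,q}`. -/
def s (p q : ℕ) (h : 1 ≤ p ∧ p < q ∧ q ≤ n) : Cactus n :=
  PresentedGroup.of (rels := relators n) (⟨p, q, h⟩ : Interval n)

lemma s_disjoint (p q m r : ℕ) (h : 1 ≤ p ∧ p < q ∧ q ≤ n) (h' : 1 ≤ m ∧ m < r ∧ r ≤ n)
    (hd : q < m ∨ r < p) : s p q h * s m r h' = s m r h' * s p q h := by
  have h1 : (PresentedGroup.mk (relators n))
      (FreeGroup.of (⟨p, q, h⟩ : Interval n) * FreeGroup.of (⟨m, r, h'⟩ : Interval n) *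
        (FreeGroup.of (⟨m, r, h'⟩ : Interval n) * FreeGroup.of (⟨p, q, h⟩ : Interval n))⁻¹)
        = 1 :=
    PresentedGroup.one_of_mem (Or.inr (Or.inl ⟨_, _, hd, rfl⟩))
  rwa [map_mul, map_inv, mul_inv_eq_one, map_mul, map_mul] at h1

lemma s_nested (p q m r m' r' : ℕ) (h : 1 ≤ p ∧ p < q ∧ q ≤ n) (h' : 1 ≤ m ∧ m < r ∧ r ≤ n)
    (h'' : 1 ≤ m' ∧ m' < r' ∧ r' ≤ n)
    (hpm : p ≤ m) (hrq : r ≤ q) (e1 : m' = p + q - r) (e2 : r' = p + q - m) :
    s m' r' h'' * s p q h = s p q h * s m r h' := by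
  have h1 : (PresentedGroup.mk (relators n))
      (FreeGroup.of (⟨p, q, h⟩ : Interval n) * FreeGroup.of (⟨m, r, h'⟩ : Interval n) *
        (FreeGroup.of (⟨m', r', h''⟩ : Interval n) *
          FreeGroup.of (⟨p, q, h⟩ : Interval n))⁻¹) = 1 :=
    PresentedGroup.one_of_mem (Or.inr (Or.inr ⟨_, _, _, hpm, hrq, e1, e2, rfl⟩))
  rw [map_mul, map_inv, mul_inv_eq_one, map_mul, map_mul] at h1
  exact h1.symm

/-- The commuting elements. -/
def y (j : ℕ) (h : 1 ≤ j ∧ 2 * j + 1 ≤ n) : Cactus n :=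
  s (2 * j) (2 * j + 1) (by omega) * (s 1 (2 * j) (by omega) * (s 2 (2 * j + 1) (by omega) *
    (s 1 2 (by omega) * (s 2 (2 * j + 1) (by omega) * s 1 (2 * j) (by omega)))))

lemma s_commute_y (p q j : ℕ) (h : 1 ≤ p ∧ p < q ∧ q ≤ n) (hj : 1 ≤ j ∧ 2 * j + 1 ≤ n)
    (hq : q ≤ 2 * j - 1) : Commute (s p q h) (y j hj) := by
  have e1 : s p q h * s (2 * j) (2 * j + 1) (by omega) =
      s (2 * j) (2 * j + 1) (by omega) * s p q h := s_disjoint _ _ _ _ _ _ (by omega)
  have e2 : s p q h * s 1 (2 * j) (by omega) =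
      s 1 (2 * j) (by omega) * s (2 * j + 1 - q) (2 * j + 1 - p) (by omega) :=
    s_nested _ _ _ _ _ _ _ _ _ (by omega) (by omega) (by omega) (by omega)
  have e3 : s (n := n) (2 * j + 1 - q) (2 * j + 1 - p) (by omega) *
      s 2 (2 * j + 1) (by omega) = s 2 (2 * j + 1) (by omega) * s (p + 2) (q + 2) (by omega) :=
    s_nested _ _ _ _ _ _ _ _ _ (by omega) (by omega) (by omega) (by omega)
  have e4 : s (n := n) (p + 2) (q + 2) (by omega) * s 1 2 (by omega) =
      s 1 2 (by omega) * s (p + 2) (q + 2) (by omega) := s_disjoint _ _ _ _ _ _ (by omega)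
  have e5 : s (n := n) (p + 2) (q + 2) (by omega) * s 2 (2 * j + 1) (by omega) =
      s 2 (2 * j + 1) (by omega) * s (2 * j + 1 - q) (2 * j + 1 - p) (by omega) :=
    s_nested _ _ _ _ _ _ _ _ _ (by omega) (by omega) (by omega) (by omega)
  have e6 : s (n := n) (2 * j + 1 - q) (2 * j + 1 - p) (by omega) * s 1 (2 * j) (by omega) =
      s 1 (2 * j) (by omega) * s p q h :=
    s_nested _ _ _ _ _ _ _ _ _ (by omega) (by omega) (by omega) (by omega)
  unfold y
  show _ * _ = _ * _
  calc _ = (s p q h * s (2 * j) (2 * j + 1) (by omega)) * (s 1 (2 * j) (by omega) *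
        (s 2 (2 * j + 1) (by omega) * (s 1 2 (by omega) * (s 2 (2 * j + 1) (by omega) *
          s 1 (2 * j) (by omega))))) := by rw [mul_assoc]
    _ = s (2 * j) (2 * j + 1) (by omega) * ((s p q h * s 1 (2 * j) (by omega)) *
        (s 2 (2 * j + 1) (by omega) * (s 1 2 (by omega) * (s 2 (2 * j + 1) (by omega) *
          s 1 (2 * j) (by omega))))) := by rw [e1]; simp only [mul_assoc]
    _ = s (2 * j) (2 * j + 1) (by omega) * (s 1 (2 * j) (by omega) *
        ((s (2 * j + 1 - q) (2 * j + 1 - p) (by omega) * s 2 (2 * j + 1) (by omega)) *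
          (s 1 2 (by omega) * (s 2 (2 * j + 1) (by omega) *
          s 1 (2 * j) (by omega))))) := by rw [e2]; simp only [mul_assoc]
    _ = s (2 * j) (2 * j + 1) (by omega) * (s 1 (2 * j) (by omega) *
        (s 2 (2 * j + 1) (by omega) * ((s (p + 2) (q + 2) (by omega) *
          s 1 2 (by omega)) * (s 2 (2 * j + 1) (by omega) *
          s 1 (2 * j) (by omega))))) := by rw [e3]; simp only [mul_assoc]
    _ = s (2 * j) (2 * j + 1) (by omega) * (s 1 (2 * j) (by omega) *
        (s 2 (2 * j + 1) (by omega) * (s 1 2 (by omega) * ((s (p + 2) (q + 2) (by omega) *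
          s 2 (2 * j + 1) (by omega)) *
          s 1 (2 * j) (by omega))))) := by rw [e4]; simp only [mul_assoc]
    _ = s (2 * j) (2 * j + 1) (by omega) * (s 1 (2 * j) (by omega) *
        (s 2 (2 * j + 1) (by omega) * (s 1 2 (by omega) * (s 2 (2 * j + 1) (by omega) *
          (s (2 * j + 1 - q) (2 * j + 1 - p) (by omega) *
          s 1 (2 * j) (by omega)))))) := by rw [e5]; simp only [mul_assoc]
    _ = _ := by rw [e6]; simp only [mul_assoc]

lemma y_commute_of_lt (i j : ℕ) (hi : 1 ≤ i ∧ 2 * i + 1 ≤ n) (hj : 1 ≤ j ∧ 2 * j + 1 ≤ n)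
    (hij : i < j) : Commute (y i hi) (y j hj) := by
  have h : ∀ p q (h : 1 ≤ p ∧ p < q ∧ q ≤ n), q ≤ 2 * i + 1 → Commute (s p q h) (y j hj) :=
    fun p q h hq => s_commute_y p q j h hj (by omega)
  unfold y at h ⊢
  exact (h _ _ _ (by omega)).mul_left ((h _ _ _ (by omega)).mul_left
    ((h _ _ _ (by omega)).mul_left ((h _ _ _ (by omega)).mul_left
      ((h _ _ _ (by omega)).mul_left (h _ _ _ (by omega))))))

end Relations

section Action

/-- The reversal of the interval `[p, q]`. -/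
def revFun (p q i : ℕ) : ℕ := if p ≤ i ∧ i ≤ q then p + q - i else i

lemma revFun_invol (p q : ℕ) : Function.Involutive (revFun p q) := by
  intro i
  unfold revFun
  split_ifs <;> omega

/-- The reversal of the interval `[p, q]`, as a permutation. -/
def rev (p q : ℕ) : Equiv.Perm ℕ := (revFun_invol p q).toPerm

lemma rev_apply (p q i : ℕ) : rev p q i = revFun p q i := rfl

lemma rev_mul_self (p q : ℕ) : rev p q * rev p q = 1 := by
  ext i; simp only [Equiv.Perm.mul_apply, rev_apply, Equiv.Perm.one_apply, revFun_invol p q i]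

lemma rev_inv (p q : ℕ) : (rev p q)⁻¹ = rev p q := by
  rw [inv_eq_iff_mul_eq_one]; exact rev_mul_self p q

/-- The set of labels in the positions `[p, q]`. -/
def labels (σ : Equiv.Perm ℕ) (p q : ℕ) : Set ℕ := {x | p ≤ σ⁻¹ x ∧ σ⁻¹ x ≤ q}

lemma labels_mul_rev (σ : Equiv.Perm ℕ) (p q : ℕ) : labels (σ * rev p q) p q = labels σ p q := by
  ext x
  simp only [labels, Set.mem_ofPred_eq, mul_inv_rev, rev_inv, Equiv.Perm.mul_apply, rev_apply,
    revFun]
  split_ifs <;> omega

/-- The action of a generator. -/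
def actFun (c : Set ℕ → Equiv.Perm ℤ) (p q : ℕ) (x : Equiv.Perm ℕ × ℤ) : Equiv.Perm ℕ × ℤ :=
  (x.1 * rev p q, c (labels x.1 p q) x.2)

lemma actFun_invol (c : Set ℕ → Equiv.Perm ℤ) (hc : ∀ S, c S * c S = 1) (p q : ℕ) :
    Function.Involutive (actFun c p q) := by
  intro x
  simp only [actFun, labels_mul_rev]
  ext1
  · simp only [mul_assoc, rev_mul_self, mul_one]
  · simp only
    rw [← Equiv.Perm.mul_apply, hc, Equiv.Perm.one_apply]

/-- The action of a generator, as a permutation. -/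
def act (c : Set ℕ → Equiv.Perm ℤ) (hc : ∀ S, c S * c S = 1) (p q : ℕ) :
    Equiv.Perm (Equiv.Perm ℕ × ℤ) := (actFun_invol c hc p q).toPerm

lemma act_apply (c : Set ℕ → Equiv.Perm ℤ) (hc : ∀ S, c S * c S = 1) (p q : ℕ)
    (x : Equiv.Perm ℕ × ℤ) : act c hc p q x = (x.1 * rev p q, c (labels x.1 p q) x.2) := rfl

/-- The action of the cactus group. -/
def theta (n : ℕ) (c : Set ℕ → Equiv.Perm ℤ) (hc : ∀ S, c S * c S = 1)
    (hc1 : ∀ S T, S ⊆ T → c S * c T = c T * c S)
    (hc2 : ∀ S T, Disjoint S T → S.Nonempty → c S * c T = c T * c S) :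
    Cactus n →* Equiv.Perm (Equiv.Perm ℕ × ℤ) :=
  PresentedGroup.toGroup (f := fun I : Interval n => act c hc I.lo I.hi) (by
    rintro w (⟨I, rfl⟩ | ⟨I, J, hd, rfl⟩ | ⟨I, J, K, h1, h2, h3, h4, rfl⟩)
    · simp only [map_mul, FreeGroup.lift_apply_of]
      ext1 x
      rw [Equiv.Perm.mul_apply]
      exact actFun_invol c hc _ _ x
    · obtain ⟨p, q, hI⟩ := I
      obtain ⟨m, r, hJ⟩ := J
      simp only at hd hI hJ
      rw [map_mul, map_inv, mul_inv_eq_one]
      simp only [map_mul, FreeGroup.lift_apply_of]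
      ext1 x
      simp only [Equiv.Perm.mul_apply, act_apply]
      have l1 : labels (x.1 * rev m r) p q = labels x.1 p q := by
        ext z
        simp only [labels, Set.mem_ofPred_eq, mul_inv_rev, rev_inv, Equiv.Perm.mul_apply,
          rev_apply, revFun]
        split_ifs <;> omega
      have l2 : labels (x.1 * rev p q) m r = labels x.1 m r := by
        ext z
        simp only [labels, Set.mem_ofPred_eq, mul_inv_rev, rev_inv, Equiv.Perm.mul_apply,
          rev_apply, revFun]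
        split_ifs <;> omega
      rw [l1, l2]
      have r1 : x.1 * rev m r * rev p q = x.1 * rev p q * rev m r := by
        rw [mul_assoc, mul_assoc]
        congr 1
        ext z
        simp only [Equiv.Perm.mul_apply, rev_apply, revFun]
        split_ifs <;> omega
      rw [r1]
      have d : Disjoint (labels x.1 p q) (labels x.1 m r) := by
        rw [Set.disjoint_left]
        intro z hz1 hz2
        simp only [labels, Set.mem_ofPred_eq] at hz1 hz2
        omega
      have ne : (labels x.1 p q).Nonempty := ⟨x.1 p, by simp [labels]; omega⟩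
      rw [← Equiv.Perm.mul_apply, ← Equiv.Perm.mul_apply, hc2 _ _ d ne]
    · obtain ⟨p, q, hI⟩ := I
      obtain ⟨m, r, hJ⟩ := J
      obtain ⟨m', r', hK⟩ := K
      simp only at h1 h2 h3 h4 hI hJ hK
      rw [map_mul, map_inv, mul_inv_eq_one]
      simp only [map_mul, FreeGroup.lift_apply_of]
      ext1 x
      simp only [Equiv.Perm.mul_apply, act_apply]
      have l1 : labels (x.1 * rev m r) p q = labels x.1 p q := by
        ext z
        simp only [labels, Set.mem_ofPred_eq, mul_inv_rev, rev_inv, Equiv.Perm.mul_apply,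
          rev_apply, revFun]
        split_ifs <;> omega
      have l2 : labels (x.1 * rev p q) m' r' = labels x.1 m r := by
        ext z
        simp only [labels, Set.mem_ofPred_eq, mul_inv_rev, rev_inv, Equiv.Perm.mul_apply,
          rev_apply, revFun]
        split_ifs <;> omega
      rw [l1, l2]
      have r1 : x.1 * rev m r * rev p q = x.1 * rev p q * rev m' r' := by
        rw [mul_assoc, mul_assoc]
        congr 1
        ext z
        simp only [Equiv.Perm.mul_apply, rev_apply, revFun]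
        split_ifs <;> omega
      rw [r1]
      have d : labels x.1 m r ⊆ labels x.1 p q := by
        intro z hz
        simp only [labels, Set.mem_ofPred_eq] at hz ⊢
        omega
      rw [← Equiv.Perm.mul_apply, ← Equiv.Perm.mul_apply, hc1 _ _ d])

lemma theta_s (n : ℕ) (c : Set ℕ → Equiv.Perm ℤ) (hc : ∀ S, c S * c S = 1)
    (hc1 : ∀ S T, S ⊆ T → c S * c T = c T * c S)
    (hc2 : ∀ S T, Disjoint S T → S.Nonempty → c S * c T = c T * c S) (p q : ℕ)
    (h : 1 ≤ p ∧ p < q ∧ q ≤ n) (x : Equiv.Perm ℕ × ℤ) :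
    theta n c hc hc1 hc2 (s p q h) x = (x.1 * rev p q, c (labels x.1 p q) x.2) := by
  simp only [theta, s, PresentedGroup.toGroup.of, act_apply]

/-- The first test set `{1, …, 2j}`. -/
def A1 (j : ℕ) : Set ℕ := {x | 1 ≤ x ∧ x ≤ 2 * j}

/-- The second test set `{1, …, 2j-1, 2j+1}`. -/
def A2 (j : ℕ) : Set ℕ := {x | (1 ≤ x ∧ x ≤ 2 * j - 1) ∨ x = 2 * j + 1}

/-- The third test set `{2j, 2j+1}`. -/
def A3 (j : ℕ) : Set ℕ := {x | x = 2 * j ∨ x = 2 * j + 1}

lemma theta_y (n : ℕ) (c : Set ℕ → Equiv.Perm ℤ) (hc : ∀ S, c S * c S = 1)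
    (hc1 : ∀ S T, S ⊆ T → c S * c T = c T * c S)
    (hc2 : ∀ S T, Disjoint S T → S.Nonempty → c S * c T = c T * c S) (j : ℕ)
    (h : 1 ≤ j ∧ 2 * j + 1 ≤ n) (d : ℤ) :
    theta n c hc hc1 hc2 (y j h) (1, d) =
      (1, (c (A3 j)) ((c (A2 j)) ((c (A1 j)) ((c (A3 j)) ((c (A2 j)) ((c (A1 j)) d)))))) := by
  unfold y
  simp only [map_mul, Equiv.Perm.mul_apply, theta_s]
  have k1 : labels 1 1 (2 * j) = A1 j := by
    ext z; simp [labels, A1]
  have k2 : labels (1 * rev 1 (2 * j)) 2 (2 * j + 1) = A2 j := by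
    ext z
    simp only [labels, Set.mem_ofPred_eq, mul_inv_rev, rev_inv, Equiv.Perm.mul_apply,
      rev_apply, revFun, inv_one, Equiv.Perm.one_apply, A2]
    split_ifs <;> omega
  have k3 : labels (1 * rev 1 (2 * j) * rev 2 (2 * j + 1)) 1 2 = A3 j := by
    ext z
    simp only [labels, Set.mem_ofPred_eq, mul_inv_rev, rev_inv, Equiv.Perm.mul_apply,
      rev_apply, revFun, inv_one, Equiv.Perm.one_apply, A3]
    split_ifs <;> omega
  have k4 : labels (1 * rev 1 (2 * j) * rev 2 (2 * j + 1) * rev 1 2) 2 (2 * j + 1) = A1 j := by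
    ext z
    simp only [labels, Set.mem_ofPred_eq, mul_inv_rev, rev_inv, Equiv.Perm.mul_apply,
      rev_apply, revFun, inv_one, Equiv.Perm.one_apply, A1]
    split_ifs <;> omega
  have k5 : labels (1 * rev 1 (2 * j) * rev 2 (2 * j + 1) * rev 1 2 * rev 2 (2 * j + 1)) 1 (2 * j)
      = A2 j := by
    ext z
    simp only [labels, Set.mem_ofPred_eq, mul_inv_rev, rev_inv, Equiv.Perm.mul_apply,
      rev_apply, revFun, inv_one, Equiv.Perm.one_apply, A2]
    split_ifs <;> omega
  have k6 : labels (1 * rev 1 (2 * j) * rev 2 (2 * j + 1) * rev 1 2 * rev 2 (2 * j + 1) *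
      rev 1 (2 * j)) (2 * j) (2 * j + 1) = A3 j := by
    ext z
    simp only [labels, Set.mem_ofPred_eq, mul_inv_rev, rev_inv, Equiv.Perm.mul_apply,
      rev_apply, revFun, inv_one, Equiv.Perm.one_apply, A3]
    split_ifs <;> omega
  have k7 : (1 * rev 1 (2 * j) * rev 2 (2 * j + 1) * rev 1 2 * rev 2 (2 * j + 1) *
      rev 1 (2 * j)) * rev (2 * j) (2 * j + 1) = 1 := by
    ext z
    simp only [Equiv.Perm.mul_apply, rev_apply, revFun, Equiv.Perm.one_apply]
    split_ifs <;> omega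
  rw [k1, k2, k3, k4, k5, k6, k7]

open Classical in
/-- The labelled reflections: `-x` for the first test set, `1 - x` for the second. -/
noncomputable def col (j : ℕ) (S : Set ℕ) : Equiv.Perm ℤ :=
  if S = A1 j then Equiv.subLeft 0 else if S = A2 j then Equiv.subLeft 1 else 1

lemma A1_ne_A2 (i j : ℕ) (hj : 1 ≤ j) : A1 i ≠ A2 j := by
  intro h
  have h1 : 2 * j + 1 ∈ A1 i := by rw [h]; simp [A2]
  have h2 : 2 * j ∈ A1 i := by
    simp only [A1, Set.mem_ofPred_eq] at h1 ⊢
    omega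
  rw [h] at h2
  simp only [A2, Set.mem_ofPred_eq] at h2
  omega

lemma A1_inj (i j : ℕ) (hi : 1 ≤ i) (hj : 1 ≤ j) (h : A1 i = A1 j) : i = j := by
  have h1 : 2 * i ∈ A1 j := by rw [← h]; simp only [A1, Set.mem_ofPred_eq]; omega
  have h2 : 2 * j ∈ A1 i := by rw [h]; simp only [A1, Set.mem_ofPred_eq]; omega
  simp only [A1, Set.mem_ofPred_eq] at h1 h2
  omega

lemma A2_inj (i j : ℕ) (hi : 1 ≤ i) (hj : 1 ≤ j) (h : A2 i = A2 j) : i = j := by
  have h1 : 2 * i + 1 ∈ A2 j := by rw [← h]; exact Or.inr rfl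
  have h2 : 2 * j + 1 ∈ A2 i := by rw [h]; exact Or.inr rfl
  simp only [A2, Set.mem_ofPred_eq] at h1 h2
  omega

lemma A3_ne_A1 (i j : ℕ) (hi : 1 ≤ i) (hj : 1 ≤ j) : A3 i ≠ A1 j := by
  intro h
  have h1 : 1 ∈ A3 i := by rw [h]; simp only [A1, Set.mem_ofPred_eq]; omega
  simp only [A3, Set.mem_ofPred_eq] at h1
  omega

lemma A3_ne_A2 (i j : ℕ) (hi : 1 ≤ i) (hj : 1 ≤ j) : A3 i ≠ A2 j := by
  intro h
  have h1 : 1 ∈ A3 i := by rw [h]; simp only [A2, Set.mem_ofPred_eq]; omega
  simp only [A3, Set.mem_ofPred_eq] at h1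
  omega

lemma col_A1 (j : ℕ) : col j (A1 j) = Equiv.subLeft 0 := by
  simp [col]

lemma col_A2 (j : ℕ) (hj : 1 ≤ j) : col j (A2 j) = Equiv.subLeft 1 := by
  simp [col, (A1_ne_A2 j j hj).symm]

lemma col_other (j : ℕ) (S : Set ℕ) (h1 : S ≠ A1 j) (h2 : S ≠ A2 j) : col j S = 1 := by
  simp [col, h1, h2]

lemma col_sq (j : ℕ) (S : Set ℕ) : col j S * col j S = 1 := by
  unfold col
  split_ifs
  · ext x; simp
  · ext x; simp
  · simp

lemma col_subset (j : ℕ) (hj : 1 ≤ j) (S T : Set ℕ) (h : S ⊆ T) :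
    col j S * col j T = col j T * col j S := by
  by_cases hS1 : S = A1 j
  · by_cases hT2 : T = A2 j
    · subst hS1 hT2
      have h2 : 2 * j ∈ A2 j := h (by simp only [A1, Set.mem_ofPred_eq]; omega)
      simp only [A2, Set.mem_ofPred_eq] at h2
      omega
    · by_cases hT1 : T = A1 j
      · rw [hS1, hT1]
      · rw [col_other j T hT1 hT2]; simp
  · by_cases hS2 : S = A2 j
    · by_cases hT1 : T = A1 j
      · subst hS2 hT1
        have h2 : 2 * j + 1 ∈ A1 j := h (Or.inr rfl)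
        simp only [A1, Set.mem_ofPred_eq] at h2
        omega
      · by_cases hT2 : T = A2 j
        · rw [hS2, hT2]
        · rw [col_other j T hT1 hT2]; simp
    · rw [col_other j S hS1 hS2]; simp

lemma col_disjoint (j : ℕ) (hj : 1 ≤ j) (S T : Set ℕ) (h : Disjoint S T) :
    col j S * col j T = col j T * col j S := by
  by_cases hS : S = A1 j ∨ S = A2 j
  · by_cases hT : T = A1 j ∨ T = A2 j
    · exfalso
      have h1 : 1 ∈ S := by
        rcases hS with rfl | rfl
        · simp only [A1, Set.mem_ofPred_eq]; omega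
        · simp only [A2, Set.mem_ofPred_eq]; omega
      have h2 : 1 ∈ T := by
        rcases hT with rfl | rfl
        · simp only [A1, Set.mem_ofPred_eq]; omega
        · simp only [A2, Set.mem_ofPred_eq]; omega
      exact Set.disjoint_left.mp h h1 h2
    · push Not at hT
      rw [col_other j T hT.1 hT.2]; simp
  · push Not at hS
    rw [col_other j S hS.1 hS.2]; simp

/-- The test representation number `j`. -/
noncomputable def test (n j : ℕ) (hj : 1 ≤ j) :
    Cactus n →* Equiv.Perm (Equiv.Perm ℕ × ℤ) :=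
  theta n (col j) (col_sq j) (col_subset j hj) (fun S T h _ => col_disjoint j hj S T h)

lemma test_y_self (n j : ℕ) (h : 1 ≤ j ∧ 2 * j + 1 ≤ n) (d : ℤ) :
    test n j h.1 (y j h) (1, d) = (1, d + 2) := by
  unfold test
  rw [theta_y, col_A1, col_A2 j h.1,
    col_other j (A3 j) (A3_ne_A1 j j h.1 h.1) (A3_ne_A2 j j h.1 h.1)]
  simp only [Equiv.Perm.one_apply, Equiv.subLeft_apply]
  ext1
  · rfl
  · simp only; ring

lemma test_y_other (n j i : ℕ) (hj : 1 ≤ j) (h : 1 ≤ i ∧ 2 * i + 1 ≤ n) (hij : i ≠ j) (d : ℤ) :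
    test n j hj (y i h) (1, d) = (1, d) := by
  unfold test
  rw [theta_y, col_other j (A1 i) (fun e => hij (A1_inj i j h.1 hj e)) (A1_ne_A2 i j hj),
    col_other j (A2 i) (A1_ne_A2 j i h.1).symm (fun e => hij (A2_inj i j h.1 hj e)),
    col_other j (A3 i) (A3_ne_A1 i j h.1 hj) (A3_ne_A2 i j h.1 hj)]
  simp only [Equiv.Perm.one_apply]

end Action

section Rank

variable {n k : ℕ}

/-- The commuting family. -/
def fam (hk : 2 * k + 1 ≤ n) (i : Fin k) : Cactus n :=
  y (i.1 + 1) (by have := i.2; omega)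

lemma fam_commute (hk : 2 * k + 1 ≤ n) (i j : Fin k) : Commute (fam hk i) (fam hk j) := by
  rcases lt_trichotomy i.1 j.1 with h | h | h
  · exact y_commute_of_lt _ _ _ _ (by omega)
  · have : i = j := Fin.ext h
    subst this
    exact Commute.refl _
  · exact (y_commute_of_lt _ _ _ _ (by omega)).symm

/-- The homomorphism from the free abelian group of rank `k`. -/
def hom (hk : 2 * k + 1 ≤ n) : (Fin k → Multiplicative ℤ) →* Cactus n :=
  MonoidHom.noncommPiCoprod (fun i => zpowersHom _ (fam hk i)) (fun i j _ x z => by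
    simp only [zpowersHom_apply]
    exact (fam_commute hk i j).zpow_zpow _ _)

lemma shift_zpow {G : Type*} [Group G] (f : G →* Equiv.Perm (Equiv.Perm ℕ × ℤ)) (g : G) (m : ℤ)
    (h : ∀ d : ℤ, f g (1, d) = (1, d + m)) (a : ℤ) :
    ∀ d : ℤ, f (g ^ a) (1, d) = (1, d + a * m) := by
  induction a with
  | zero => intro d; simp
  | succ a ih =>
    intro d
    rw [zpow_add_one, map_mul, Equiv.Perm.mul_apply, h, ih]
    ext1
    · rfl
    · push_cast; ring
  | pred a ih =>
    intro d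
    rw [zpow_sub_one, map_mul, Equiv.Perm.mul_apply]
    have h1 : f g⁻¹ (1, d) = (1, d - m) := by
      rw [map_inv, Equiv.Perm.inv_eq_iff_eq, h]
      simp
    rw [h1, ih]
    ext1
    · rfl
    · push_cast; ring

lemma shift_noncommProd {G ι : Type*} [Group G] [DecidableEq ι]
    (f : G →* Equiv.Perm (Equiv.Perm ℕ × ℤ)) (g : ι → G) (m : ι → ℤ)
    (h : ∀ i, ∀ d : ℤ, f (g i) (1, d) = (1, d + m i)) (S : Finset ι)
    (comm : (S : Set ι).Pairwise (Function.onFun Commute g)) :
    ∀ d : ℤ, f (S.noncommProd g comm) (1, d) = (1, d + ∑ i ∈ S, m i) := by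
  induction S using Finset.induction_on with
  | empty => intro d; simp
  | insert a S ha ih =>
    intro d
    rw [Finset.noncommProd_insert_of_notMem _ _ _ _ ha, map_mul, Equiv.Perm.mul_apply, ih, h,
      Finset.sum_insert ha]
    ext1
    · rfl
    · simp only; ring

lemma test_hom (hk : 2 * k + 1 ≤ n) (j : Fin k) (v : Fin k → Multiplicative ℤ) (d : ℤ) :
    test n (j.1 + 1) (by omega) (hom hk v) (1, d) =
      (1, d + ∑ i, (Multiplicative.toAdd (v i)) * (if i = j then 2 else 0)) := by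
  unfold hom
  rw [MonoidHom.noncommPiCoprod]
  simp only [MonoidHom.coe_mk, OneHom.coe_mk]
  apply shift_noncommProd
  intro i e
  rw [zpowersHom_apply]
  apply shift_zpow
  intro d
  unfold fam
  split_ifs with hij
  · subst hij
    exact test_y_self _ _ _ _
  · rw [test_y_other _ _ _ _ _ (by
      intro h
      apply hij
      apply Fin.ext
      omega)]
    simp

lemma hom_injective (hk : 2 * k + 1 ≤ n) : Function.Injective (hom (n := n) hk) := by
  rw [injective_iff_map_eq_one]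
  intro v hv
  funext j
  have h := test_hom hk j v 0
  rw [hv, map_one, Equiv.Perm.one_apply] at h
  have h2 := congrArg Prod.snd h
  simp only [mul_ite, mul_zero, Finset.sum_ite_eq', Finset.mem_univ, if_true, zero_add] at h2
  have h3 : Multiplicative.toAdd (v j) = 0 := by omega
  exact h3

end Rank

/-- For `2k+1 ≤ n` the cactus group `J_n` has a subgroup isomorphic to `ℤ^k`; in particular
`J_5` contains `ℤ^2`, although `⌊5/3⌋ = 1`, and the algebraic dimension of `J_n` is not
`⌊n/3⌋` for `n = 5` and for all `n ≥ 7`. -/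
theorem result :
    (∀ n k : ℕ, 2 * k + 1 ≤ n →
      ∃ H : Subgroup (Cactus n), Nonempty (H ≃* Multiplicative (Fin k → ℤ))) ∧
    ¬ (∀ n : ℕ, 2 ≤ n → ∀ k : ℕ,
      (∃ H : Subgroup (Cactus n), Nonempty (H ≃* Multiplicative (Fin k → ℤ))) ↔ k ≤ n / 3) := by
  have key : ∀ n k : ℕ, 2 * k + 1 ≤ n →
      ∃ H : Subgroup (Cactus n), Nonempty (H ≃* Multiplicative (Fin k → ℤ)) := by
    intro n k hk
    refine ⟨(hom hk).range, ⟨(MulEquiv.trans ?_ (MonoidHom.ofInjective (hom_injective hk))).symm⟩⟩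
    exact (MulEquiv.piMultiplicative (fun _ : Fin k => ℤ))
  refine ⟨key, fun h => ?_⟩
  have h1 := (h 5 (by norm_num) 2).mp (key 5 2 (by norm_num))
  omega

end Pool.Agent.Results.MP_fc7805_al.LargeAbelian
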